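import Mathlib
import Pool.Agent.H.MP_fd67f7_an.B

namespace Pool.Agent.Results.MP_fd67f7_an.NoQ1

open Set Metric Filter Topology

/-- `(1/n) card {0 ≤ k ≤ n : d(fᵏ x, fᵏ y) < δ}`. -/
noncomputable def cnt {X : Type} [MetricSpace X] (f : X → X) (x y : X) (δ : ℝ) (n : ℕ) : ℝ :=
  (((Finset.range (n + 1)).filter fun k => dist (f^[k] x) (f^[k] y) < δ).card : ℝ) / n

/-- Lower distribution function. -/
noncomputable def Phi {X : Type} [MetricSpace X] (f : X → X) (x y : X) (δ : ℝ) : ℝ :=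
  liminf (cnt f x y δ) atTop

/-- Upper distribution function. -/
noncomputable def PhiS {X : Type} [MetricSpace X] (f : X → X) (x y : X) (δ : ℝ) : ℝ :=
  limsup (cnt f x y δ) atTop

/-- DC2 pair. -/
def DC2 {X : Type} [MetricSpace X] (f : X → X) (x y : X) : Prop :=
  x ≠ y ∧ (∀ δ, 0 < δ → δ ≤ diam (univ : Set X) → PhiS f x y δ = 1) ∧
    ∃ ε, 0 < ε ∧ ε ≤ diam (univ : Set X) ∧ Phi f x y ε < 1

/-- DC2½ pair: the limits at `0⁺` satisfy `Φ(0) < Φ*(0)`. -/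
def DC25 {X : Type} [MetricSpace X] (f : X → X) (x y : X) : Prop :=
  x ≠ y ∧ ∃ a b : ℝ, Tendsto (Phi f x y) (𝓝[>] 0) (𝓝 a) ∧ Tendsto (PhiS f x y) (𝓝[>] 0) (𝓝 b) ∧ a < b

theorem result : ∃ (X : Type) (_ : MetricSpace X), CompactSpace X ∧ ConnectedSpace X ∧
    LocallyConnectedSpace X ∧ (∀ S : Set X, IsEmpty (S ≃ₜ Circle)) ∧
    ∃ f : X → X, Continuous f ∧ (∃ x y, DC25 f x y) ∧ ¬ ∃ x y, DC2 f x y :=
  Pool.Agent.H.MP_fd67f7_an.main

end Pool.Agent.Results.MP_fd67f7_an.NoQ1
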